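import Pool.Agent.MP_ecfd11_lc.H13X.Conv
import Pool.Agent.MP_ecfd11_lc.H13X.Crit
import Pool.Agent.MP_ecfd11_lc.H46.Defs

/-!
Covering an ordinal by countably many small ordinal definable sets.
-/

set_option synthInstance.maxSize 4000

namespace Pool.Agent.MP_ecfd11_lc.H13X

open Pool.Agent.MP_ecfd11_lc.H20

universe u

open ZFSet Cardinal Function

theorem cov_dInj {a b f : ZFSet.{u}} (h0 : OD Set.univ f) (h : IsInj a b f) :
    DInj Set.univ a b := by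
  have : Tm Set.univ On (fun _ => f) := od_iff.1 h0
  exact ⟨app f, inferInstance, fun x hx => h.1.app_mem' hx,
    fun x hx y hy e => h.2 x y _ (h.1.app_mem hx) (e ▸ h.1.app_mem hy)⟩

theorem cov_mem_of_card_lt {a b : ZFSet.{u}} (ha : a.IsOrdinal) (hb : b.IsOrdinal)
    (h : card a < card b) : a ∈ b :=
  (ha.mem_or_subset hb).resolve_right fun h' => (card_mono h').not_gt h

theorem cov_bdd_seq {b : ZFSet.{u}} (h : Unc b) (F : ℕ → ZFSet.{u}) (hF : ∀ n, F n ∈ b) :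
    ∃ c ∈ b, ∀ n, F n ∈ c := by
  let Z : ZFSet.{u} := range fun n : ULift.{u} ℕ => F n.down
  have hZ : card Z ≤ card om := by
    rw [card_om]
    simpa using lift_card_range_le (f := fun n : ULift.{u} ℕ => F n.down)
  obtain ⟨c, hc, h3⟩ := h.2 Z (fun x hx => by obtain ⟨n, rfl⟩ := mem_range.1 hx; exact hF _) hZ
  exact ⟨c, hc, fun n => h3 _ (mem_range.2 ⟨⟨n⟩, rfl⟩)⟩

/-- Countably many clubs meet above any point. -/
theorem cov_clubs {b x : ZFSet.{u}} (h : Unc b) (c : ℕ → ZFSet.{u}) (hc : ∀ n, Club b (c n))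
    (hx : x ∈ b) : ∃ g ∈ b, x ∈ g ∧ ∀ n, g ∈ c n := by
  choose! F f1 f2 using fun n => (hc n).2.1
  choose! N n1 n2 using fun y (hy : y ∈ b) =>
    cov_bdd_seq h (fun n => F n y) fun n => (hc n).1 (f1 n y hy)
  obtain ⟨g, hg, h3, h4⟩ := h.exists_closed N (fun y hy => ⟨n1 y hy,
    (h.1.mem (n1 y hy)).mem_trans (f2 0 y hy) (n2 y hy 0)⟩) hx
  refine ⟨g, hg, h3, fun n => (hc n).2.2 g hg ⟨x, h3⟩ fun z hz => ?_⟩
  obtain ⟨y, hy, h5, h6⟩ := h4 z hz
  have hyb := h.1.mem_trans hy hg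
  exact ⟨F n y, f1 n y hyb, (h.1.mem ((hc n).1 (f1 n y hyb))).mem_trans h5 (f2 n y hyb),
    (h.1.mem hg).mem_trans (n2 y hyb n) h6⟩

/-- Above a bound of the exceptional set every ordinal injects definably into the bound. -/
theorem cov_bound {L b K : ZFSet.{u}} (h : Unc b) (hL : L ∈ b) (hK : card K ≤ card om)
    (h1 : ∀ a ∈ b, L ∈ a → a ∉ K → ∃ y ∈ a, DInj Set.univ a y) :
    ∃ m ∈ b, om ⊆ m ∧ ∀ a ∈ b, DInj Set.univ a m := by
  obtain ⟨c, hc, h2⟩ := h.2 (K ∩ b) (fun x hx => (mem_inter.1 hx).2)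
    ((card_mono fun x hx => (mem_inter.1 hx).1).trans hK)
  obtain ⟨d, hd, h3, h4⟩ := exists_bound2 h.1 hc hL
  obtain ⟨m, hm, h5, h6⟩ := exists_bound2 h.1 hd h.omega_mem
  refine ⟨m, hm, h6, fun a => ?_⟩
  induction a using ZFSet.inductionOn with
  | _ a ih =>
    intro ha
    rcases (h.1.mem hm).mem_or_subset (h.1.mem ha) with h7 | h7
    · obtain ⟨y, hy, h8⟩ := h1 a ha ((h.1.mem hL).mem_of_subset_of_mem (h.1.mem ha)
        (h4.trans h5) h7) fun hk => mem_asymm h7 (h5 (h3 (h2 a (mem_inter.2 ⟨hk, ha⟩))))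
      exact h8.trans (ih y hy (h.1.mem_trans hy ha))
    · exact DInj.of_subset h7

/-- `x` is covered by countably many ordinal definable sets of size less than `L`. -/
def Cov (L x : ZFSet.{u}) : Prop :=
  ∃ B : ℕ → ZFSet.{u}, (∀ n, OD Set.univ (B n) ∧ card (B n) < card L) ∧ ∀ y ∈ x, ∃ n, y ∈ B n

theorem cov_step {L b m : ZFSet.{u}} {H : ℕ → ZFSet.{u}} (h0 : ℵ₀ < card L)
    (hH : ∀ n, card (H n) < card L) (hH' : ∀ x ∈ L, ∃ n, x ∈ H n) (h : Unc b)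
    (hb : card b ≤ card L) (h1 : ∀ a ∈ b, DInj Set.univ a m) (hm : m.IsOrdinal) (h2 : Cov L m) :
    Cov L b := by
  obtain ⟨A, a1, a2⟩ := h2
  have : Tm Set.univ On (fun _ => m) := Tm.ofOrd hm
  have : Tm Set.univ On (fun _ => b) := Tm.ofOrd h.1
  obtain ⟨G, g0, g1⟩ := od_choice (C := Set.univ) b (fun a f => IsInj a m f)
    fun a ha => (h1 a ha).exists_od (h.1.mem ha)
  replace g1 := fun a ha => g1 a ha trivial
  have := Tm.one (C := Set.univ) (A := On) G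
  obtain ⟨i, i1, i2⟩ := exists_inj_of_card_le hb
  obtain ⟨n, hn⟩ : ∃ n, ∀ x ∈ b, ∃ z ∈ b.sep fun z => i z ∈ H n, x ∈ z := by
    by_contra h3
    push Not at h3
    choose F f1 f2 using h3
    obtain ⟨c, hc, h4⟩ := cov_bdd_seq h F f1
    obtain ⟨n, h5⟩ := hH' _ (i1 c hc)
    exact f2 n c (mem_sep.2 ⟨hc, h5⟩) (h4 n)
  have h3 : card (b.sep fun z => i z ∈ H n) < card L :=
    (card_le_of_inj i (fun x hx => (mem_sep.1 hx).2) fun x hx y hy =>
      i2 x (mem_sep.1 hx).1 y (mem_sep.1 hy).1).trans_lt (hH n)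
  obtain ⟨k, hk⟩ : ∃ k, k = max ℵ₀ (card (b.sep fun z => i z ∈ H n)) := ⟨_, rfl⟩
  have k0 : ℵ₀ ≤ k := hk ▸ le_max_left _ _
  have k1 : k < card L := hk ▸ max_lt h0 h3
  obtain ⟨c, c1, c2⟩ := Sm.exists_club (d := (Order.succ k).ord.toZFSet)
    (regular_ord (isRegular_succ k0) (k0.trans_lt (Order.lt_succ k))) h.1
    ⟨_, sep_subset, by
      rw [card_ord', not_le, Order.lt_succ_iff, hk]; exact le_max_right _ _, hn⟩
  rw [card_ord', Order.lt_succ_iff] at c2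
  refine ⟨fun n => b.sep fun x => ¬ Null b (b.sep fun a => x ∈ a ∧ app (G a) x ∈ A n),
    fun n => ⟨?_, ?_⟩, fun x hx => ?_⟩
  · have : Tm Set.univ On (fun _ => A n) := od_iff.1 (a1 n).1
    exact od_iff.2 inferInstance
  · have h4 : ∀ x ∈ b.sep fun x => ¬ Null b (b.sep fun a => x ∈ a ∧ app (G a) x ∈ A n),
        ∃ a ∈ c, x ∈ a ∧ app (G a) x ∈ A n := fun x hx => by
      by_contra h5
      exact (mem_sep.1 hx).2 ⟨c, c1, fun a ha hc => h5 ⟨a, hc, (mem_sep.1 ha).2⟩⟩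
    choose! T t1 t2 t3 using h4
    refine (card_le_of_inj (b := prod c (A n)) (fun x => pair (T x) (app (G (T x)) x))
      (fun x hx => pair_mem_prod.2 ⟨t1 x hx, t3 x hx⟩) fun x hx y hy e => ?_).trans_lt
      ((card_prod_le _ _).trans_lt (mul_lt_of_lt h0.le (c2.trans_lt k1) (a1 n).2))
    obtain ⟨e1, e2⟩ := pair_inj.1 e
    have h5 := g1 _ (c1.1 (t1 x hx))
    rw [← e1] at e2
    exact h5.2 x y _ (h5.1.app_mem (t2 x hx)) (e2 ▸ h5.1.app_mem (e1 ▸ t2 y hy))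
  · by_contra h4
    have h5 : ∀ n, Null b (b.sep fun a => x ∈ a ∧ app (G a) x ∈ A n) := fun n => by
      by_contra h6
      exact h4 ⟨n, mem_sep.2 ⟨hx, h6⟩⟩
    choose C c3 c4 using h5
    obtain ⟨g, hg, h6, h7⟩ := cov_clubs h C c3 hx
    obtain ⟨n, h8⟩ := a2 _ ((g1 g hg).1.app_mem' h6)
    exact c4 n g (mem_sep.2 ⟨hg, h6, h8⟩) (h7 n)

/-- An ordinal that is not of uncountable cofinality is covered if its elements are. -/
theorem cov_lim {L b : ZFSet.{u}} (h0 : ℵ₀ < card L) (hb : b.IsOrdinal) (h : ¬ Unc b)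
    (ih : ∀ a ∈ b, Cov L a) : Cov L b := by
  have h1 : ∃ y, y ⊆ b ∧ card y ≤ card om ∧ ∀ x ∈ b, ∃ z ∈ y, x ⊆ z := by
    by_contra h1
    refine h ⟨hb, fun y y1 y2 => ?_⟩
    by_contra h2
    refine h1 ⟨y, y1, y2, fun x hx => ?_⟩
    by_contra h3
    exact h2 ⟨x, hx, fun z hz => ((hb.mem (y1 hz)).mem_or_subset (hb.mem hx)).resolve_right
      fun h4 => h3 ⟨z, hz, h4⟩⟩
  obtain ⟨y, y1, y2, y3⟩ := h1
  have hc : Countable y := by
    rw [card_om] at y2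
    have : Countable (Shrink.{u} y) := mk_le_aleph0_iff.1 y2
    exact (equivShrink y).injective.countable
  choose! B b1 b2 using ih
  obtain ⟨f, hf⟩ := exists_surjective_nat (Option (y × ℕ))
  let P : Option (y × ℕ) → ZFSet.{u} := fun p => p.elim ∅ fun p => insert p.1.1 (B p.1.1 p.2)
  refine ⟨fun n => P (f n), fun n => ?_, fun x hx => ?_⟩
  · beta_reduce
    rcases f n with _ | ⟨⟨z, hz⟩, j⟩
    · exact ⟨od_iff.2 (Tm.empty), by
        show card ∅ < _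
        rw [card_empty]; exact aleph0_pos.trans h0⟩
    · have : Tm Set.univ On (fun _ => z) := Tm.ofOrd (hb.mem (y1 hz))
      have : Tm Set.univ On (fun _ => B z j) := od_iff.1 (b1 z (y1 hz) j).1
      refine ⟨od_iff.2 (inferInstanceAs (Tm Set.univ On fun _ => insert z (B z j))), ?_⟩
      show card (insert z (B z j)) < _
      exact card_insert_le.trans_lt (add_lt_of_lt h0.le (b1 z (y1 hz) j).2
        (one_lt_aleph0.trans h0))
  · obtain ⟨z, hz, h2⟩ := y3 x hx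
    rcases (hb.mem hx).eq_or_mem_of_subset (hb.mem (y1 hz)) h2 with rfl | h3
    · obtain ⟨n, hn⟩ := hf (some (⟨x, hz⟩, 0))
      exact ⟨n, by beta_reduce; rw [hn]; exact mem_insert _ _⟩
    · obtain ⟨j, hj⟩ := b2 z (y1 hz) x h3
      obtain ⟨n, hn⟩ := hf (some (⟨z, hz⟩, j))
      exact ⟨n, by beta_reduce; rw [hn]; exact mem_insert_of_mem _ hj⟩

/-- The covering lemma. -/
theorem cover {L l K nu : ZFSet.{u}} {H : ℕ → ZFSet.{u}} (hL : L.IsOrdinal) (h0 : om ∈ L)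
    (hc : ∀ a ∈ L, card a < card L) (hH : ∀ n, H n ∈ L) (hH' : ∀ x ∈ L, ∃ n, x ∈ H n)
    (hl : StronglyMeasurable Set.univ l) (hLl : card l = Order.succ (card L))
    (hnu : nu.IsOrdinal) (hK : card K ≤ card om)
    (h1 : ∀ a ∈ nu, L ∈ a → a ∉ K → ∃ y ∈ a, DInj Set.univ a y) : Cov L nu := by
  have h2 : ℵ₀ < card L := card_om ▸ hc _ h0
  have h3 : nu ∈ l := by
    by_contra h3
    rw [hnu.notMem_iff_subset hl.1.1] at h3
    obtain ⟨m, hm, h4, h5⟩ := cov_bound (unc_of_regular hl.1)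
      (hl.1.mem_of_card_lt hL (hLl ▸ Order.lt_succ _)) hK fun a ha => h1 a (h3 ha)
    obtain ⟨a, ha, h6⟩ := exists_not_dInj hl.1.1 (hl.1.1.mem hm) h4 (no_inj_of_sm hl hm)
    exact h6 (h5 a ha)
  have h4 : card nu ≤ card L := Order.lt_succ_iff.1 (hLl ▸ hl.1.card_lt h3)
  clear h3
  induction nu using ZFSet.inductionOn with
  | _ b ih =>
    have ih' : ∀ a ∈ b, Cov L a := fun a ha => ih a ha (hnu.mem ha)
      (fun x hx => h1 x (hnu.mem_trans hx ha)) ((card_mono (hnu.subset_of_mem ha)).trans h4)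
    rcases hL.mem_or_subset hnu with h5 | h5
    · by_cases h6 : Unc b
      · obtain ⟨m, hm, -, h7⟩ := cov_bound h6 h5 hK h1
        exact cov_step h2 (fun n => hc _ (hH n)) hH' h6 h4 h7 (hnu.mem hm) (ih' m hm)
      · exact cov_lim h2 hnu h6 ih'
    · exact ⟨H, fun n => ⟨od_iff.2 (Tm.ofOrd (hL.mem (hH n))), hc _ (hH n)⟩,
        fun y hy => hH' y (h5 hy)⟩

theorem cov_rank_lim {L : ZFSet.{u}} (hL : L.IsOrdinal) (h : ∀ b ∈ L, ∃ c ∈ L, b ∈ c) :
    ∀ a < L.rank, Order.succ a < L.rank := fun a ha => by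
  obtain ⟨c, hc, h1⟩ := h _ (mem_of_rank hL ha)
  have h2 := rank_lt_of_mem h1
  rw [Ordinal.rank_toZFSet] at h2
  exact (Order.succ_le_of_lt h2).trans_lt (rank_lt_of_mem hc)

theorem Exact1.lim {L : ZFSet.{u}} (hL : Exact1 L) : ∀ b ∈ L, ∃ c ∈ L, b ∈ c := fun b hb => by
  obtain ⟨H, h1, h2⟩ := hL.seq
  obtain ⟨n, hn⟩ := h2 b hb
  exact ⟨H n, h1 n, hn⟩

/-- An exact ordinal is a cardinal. -/
theorem Exact1.card_lt {L : ZFSet.{u}} (hL : Exact1 L) : ∀ a ∈ L, card a < card L := by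
  intro a ha
  by_contra hc
  rw [not_lt] at hc
  have hao := hL.1.mem ha
  have : Tm Set.univ On (fun _ => a) := Tm.ofOrd hao
  obtain ⟨e, k, h1, h2, h3, h4⟩ := hL.2 {a} (od_iff.2 inferInstance)
    fun z hz => mem_singleton.1 hz ▸ mem_V_of_mem ha
  have h5 := h1.el (isTransitive_vonNeumann _)
  have hko := hL.1.mem h2
  have h6 : e a = a := mem_singleton.1 ((h1.pres (mem_V_of_mem ha)).1 (mem_singleton.2 rfl))
  have h7 : e k ≠ k := fun h => by
    obtain ⟨n, hn⟩ := h4 k h2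
    rw [iterate_fixed h] at hn
    exact mem_irrefl _ hn
  have h8 : k ∈ e k := by
    refine ((hko.subset_iff_eq_or_mem (h5.ord hko (mem_V_of_mem h2))).1 fun x hx => ?_).resolve_left
      h7.symm
    have := h5.mem hx (mem_V_of_mem h2)
    rwa [h3 x hx] at this
  have h9 : a ∈ k := by
    rcases hao.mem_trichotomous hko with h | h | h
    · exact h
    · exact absurd (h ▸ h6) h7
    · obtain ⟨n, hn⟩ := h4 a ha
      have := (h5.iter n).mem h (mem_V_of_mem ha)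
      rw [iterate_fixed h6] at this
      exact absurd hn (mem_asymm this)
  obtain ⟨i, i1, i2⟩ := exists_inj_of_card_le
    ((card_mono (hL.1.subset_of_mem h2)).trans hc : card k ≤ card a)
  have hlim := cov_rank_lim hL.1 hL.lim
  have hf : gr i k ∈ V_ L.rank := by
    refine mem_vonNeumann.2 ((rank_le_iff.2 fun z hz => ?_).trans_lt
      (hlim _ (hlim _ (rank_lt_of_mem h2))))
    obtain ⟨x, hx, rfl⟩ := mem_img.1 hz
    have e1 := Order.succ_le_of_lt (rank_lt_of_mem hx)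
    have e2 := Order.succ_le_of_lt (rank_lt_of_mem (hko.mem_trans (i1 x hx) h9))
    rw [pair, rank_pair, rank_singleton, rank_pair, Order.lt_succ_iff]
    exact max_le (Order.succ_le_succ e1) (Order.succ_le_succ (max_le e1 e2))
  obtain ⟨y, hy, h10⟩ := (h5.tf3 (fun f k a => ∀ x, x ∈ k → ∃ y, y ∈ a ∧ pair x y ∈ f) hf
    (mem_V_of_mem h2) (mem_V_of_mem ha)).1
    (fun x hx => ⟨i x, i1 x hx, pair_mem_gr.2 ⟨hx, rfl⟩⟩) k h8
  rw [h6] at hy
  have h11 := (h5.tf2 (fun f k => ∀ x y, pair x y ∈ f → ∀ x', x' ∈ k → pair x' y ∈ f → x = x')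
    hf (mem_V_of_mem h2)).1 fun x y h x' h' h'' => by
      rw [pair_mem_gr] at h h''
      exact i2 x h.1 x' h' (h.2.trans h''.2.symm)
  have h12 := (h5.tf3 (fun f k y => ∃ x, x ∈ k ∧ pair x y ∈ f) hf (mem_V_of_mem h2)
    (mem_V_of_mem (hL.1.mem_trans hy ha))).2 ⟨k, h8, by rwa [h3 y (hko.mem_trans hy h9)]⟩
  obtain ⟨x, hx, h13⟩ := h12
  have h14 := h5.pmem h13 hf
  rw [h3 x hx, h3 y (hko.mem_trans hy h9)] at h14
  exact mem_irrefl k ((h11 x y h14 k h8 h10) ▸ hx)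

/-- The covering lemma for an exact cardinal whose successor is strongly measurable in HOD. -/
theorem Exact1.cover {L nu : ZFSet.{u}} (hL : Exact1 L) (h0 : om ∈ L)
    (hl : StronglyMeasurable Set.univ (succCard L)) (hnu : nu.IsOrdinal)
    (hK : card (nu.sep fun x => L ∈ x ∧ H46.HODCard x) ≤ ℵ₀) : Cov L nu := by
  obtain ⟨H, h1, h2⟩ := hL.seq
  refine H13X.cover hL.1 h0 hL.card_lt h1 h2 hl (card_ord' _) hnu (card_om ▸ hK)
    fun a ha h3 h4 => ?_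
  by_contra h5
  exact h4 (mem_sep.2 ⟨ha, h3, hnu.mem ha, fun y hy ⟨f, f0, f1⟩ =>
    h5 ⟨y, hy, cov_dInj f0.self f1⟩⟩)

/-- A set that injects definably into `V_L × nu` is the union of the ranges of countably many
ordinal definable functions from subsets of `V_L`. -/
theorem Cov.pieces {L nu M f : ZFSet.{u}} (h : Cov L nu) (hL : L.IsOrdinal)
    (hlim : ∀ b ∈ L, ∃ c ∈ L, b ∈ c) (hnu : nu.IsOrdinal) (hM : OD Set.univ M)
    (hf : OD Set.univ f) (hi : IsInj M (prod (V_ L.rank) nu) f) :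
    ∃ p : ℕ → ZFSet.{u}, (∀ n, OD Set.univ (p n) ∧ p n ⊆ prod (V_ L.rank) M ∧
      ∀ z x x', pair z x ∈ p n → pair z x' ∈ p n → x = x') ∧
      ∀ x ∈ M, ∃ n z, pair z x ∈ p n := by
  obtain ⟨B, b1, b2⟩ := h
  have : Tm Set.univ On (fun _ => M) := od_iff.1 hM
  have : Tm Set.univ On (fun _ => f) := od_iff.1 hf
  have : Tm Set.univ On (fun _ => nu) := Tm.ofOrd hnu
  have h1 : ∀ x ∈ M, ∃ a ∈ V_ L.rank, ∃ b ∈ nu, app f x = pair a b := fun x hx =>
    mem_prod.1 (hi.1.app_mem' hx)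
  refine ⟨fun n => img (fun x => pair (pair (fst (app f x)) (colIn (B n ∩ nu) (snd (app f x)))) x)
    (M.sep fun x => snd (app f x) ∈ B n), fun n => ⟨?_, fun w hw => ?_, fun z x x' hx hx' => ?_⟩,
    fun x hx => ?_⟩
  · have : Tm Set.univ On (fun _ => B n) := od_iff.1 (b1 n).1
    exact od_iff.2 inferInstance
  · obtain ⟨x, hx, rfl⟩ := mem_img.1 hw
    obtain ⟨a, ha, b, -, e⟩ := h1 x (mem_sep.1 hx).1
    refine pair_mem_prod.2 ⟨pair_mem_V (cov_rank_lim hL hlim) (by rwa [e, fst_pair])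
      (mem_V_of_mem (cov_mem_of_card_lt (colIn_ord _ _) hL ?_)), (mem_sep.1 hx).1⟩
    exact ((card_colIn_le _ _).trans (card_mono fun y hy => (mem_inter.1 hy).1)).trans_lt (b1 n).2
  · obtain ⟨y, hy, e⟩ := mem_img.1 hx
    obtain ⟨y', hy', e'⟩ := mem_img.1 hx'
    obtain ⟨e1, rfl⟩ := pair_inj.1 e
    obtain ⟨e2, rfl⟩ := pair_inj.1 e'
    obtain ⟨y1, y2⟩ := mem_sep.1 hy
    obtain ⟨y3, y4⟩ := mem_sep.1 hy'
    obtain ⟨a, -, b, hb, e3⟩ := h1 y y1
    obtain ⟨a', -, b', hb', e4⟩ := h1 y' y3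
    have e5 := pair_inj.1 (e1.trans e2.symm)
    rw [e3, snd_pair] at y2
    rw [e4, snd_pair] at y4
    rw [e3, e4, fst_pair, fst_pair, snd_pair, snd_pair] at e5
    have e6 : b = b' := colIn_inj (fun w hw => hnu.mem (mem_inter.1 hw).2)
      (mem_inter.2 ⟨y2, hb⟩) (mem_inter.2 ⟨y4, hb'⟩) e5.2
    have e7 : app f y = app f y' := by rw [e3, e4, e5.1, e6]
    exact hi.2 y y' _ (hi.1.app_mem y1) (e7 ▸ hi.1.app_mem y3)
  · obtain ⟨a, -, b, hb, e⟩ := h1 x hx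
    obtain ⟨n, hn⟩ := b2 b hb
    exact ⟨n, _, mem_img.2 ⟨x, mem_sep.2 ⟨hx, by rwa [e, snd_pair]⟩, rfl⟩⟩

/-- Covering lemma and pieces together. -/
theorem Exact1.pieces {L nu M f : ZFSet.{u}} (hL : Exact1 L) (h0 : om ∈ L)
    (hl : StronglyMeasurable Set.univ (succCard L)) (hnu : nu.IsOrdinal)
    (hK : card (nu.sep fun x => L ∈ x ∧ H46.HODCard x) ≤ ℵ₀) (hM : OD Set.univ M)
    (hf : OD Set.univ f) (hi : IsInj M (prod (V_ L.rank) nu) f) :
    ∃ p : ℕ → ZFSet.{u}, (∀ n, OD Set.univ (p n) ∧ p n ⊆ prod (V_ L.rank) M ∧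
      ∀ z x x', pair z x ∈ p n → pair z x' ∈ p n → x = x') ∧
      ∀ x ∈ M, ∃ n z, pair z x ∈ p n :=
  (hL.cover h0 hl hnu hK).pieces hL.1 hL.lim hnu hM hf hi

end Pool.Agent.MP_ecfd11_lc.H13X
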