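import Pool.Agent.MP_ecfd11_lc.H46G.Emb
import Pool.Agent.MP_ecfd11_lc.H46G.Cover
import Pool.Agent.MP_ecfd11_lc.H46G.Defs
import Pool.Agent.MP_ecfd11_lc.H20.Scale

/-!
Exact cardinals whose successor is strongly measurable in HOD have the property `Berk`.
-/

set_option synthInstance.maxSize 4000

namespace Pool.Agent.MP_ecfd11_lc.H46G

open Pool.Agent.MP_ecfd11_lc.H20 Pool.Agent.MP_ecfd11_lc.H13X

universe u

open ZFSet Cardinal Order Function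

theorem exists_moves {L M : ZFSet.{u}} (hL : L.IsOrdinal) (hlim : ∀ a < L.rank, succ a < L.rank)
    (h0 : om ∈ L) (hLM : L ⊆ M) (p : ℕ → ZFSet.{u})
    (p1 : ∀ n, OD Set.univ (p n) ∧ p n ⊆ prod (V_ L.rank) M ∧
      ∀ z x x', pair z x ∈ p n → pair z x' ∈ p n → x = x')
    (p2 : ∀ x ∈ M, ∃ n z, pair z x ∈ p n) :
    ∃ G : ℕ → ZFSet.{u}, (∀ n, Mv L (V_ L.rank) M (G n)) ∧ (∀ n, G n ⊆ G (n + 1)) ∧
      ∀ x ∈ M, ∃ n z, pair z x ∈ G n := by
  have : Tm Set.univ On (fun _ => L) := Tm.ofOrd hL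
  let G : ℕ → ZFSet.{u} := fun n => Nat.rec (gr (fun x => x) L)
    (fun m g => g ∪ img (fun w => pair (pair (nat m) (fst w)) (snd w)) (p m)) n
  have e : ∀ n, G (n + 1) = G n ∪ img (fun w => pair (pair (nat n) (fst w)) (snd w)) (p n) :=
    fun _ => rfl
  have mem : ∀ n w, w ∈ G n ↔ (∃ x ∈ L, pair x x = w) ∨
      ∃ m < n, ∃ z x, pair z x ∈ p m ∧ pair (pair (nat m) z) x = w := fun n w => by
    induction n with
    | zero => simp [G, gr]
    | succ n ih =>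
      rw [e, mem_union, ih, or_assoc, mem_img]
      refine or_congr_right ⟨?_, ?_⟩
      · rintro (⟨m, hm, h⟩ | ⟨y, hy, rfl⟩)
        · exact ⟨m, Nat.lt_succ_of_lt hm, h⟩
        · obtain ⟨z, -, x, -, rfl⟩ := mem_prod.1 ((p1 n).2.1 hy)
          exact ⟨n, Nat.lt_succ_self n, z, x, hy, by simp⟩
      · rintro ⟨m, hm, z, x, h, rfl⟩
        rcases Nat.lt_succ_iff_lt_or_eq.1 hm with hm | rfl
        exacts [Or.inl ⟨m, hm, z, x, h, rfl⟩, Or.inr ⟨_, h, by simp⟩]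
  refine ⟨G, fun n => ⟨?_, fun w hw => ?_, fun z x h1 x' h2 => ?_,
    fun x hx => (mem _ _).2 (Or.inl ⟨x, hx, rfl⟩)⟩, fun n w hw => mem_union.2 (Or.inl hw),
    fun x hx => ?_⟩
  · induction n with
    | zero => exact od_iff.2 (inferInstanceAs (Tm Set.univ On fun _ => gr (fun x => x) L))
    | succ n ih =>
      have := od_iff.1 ih
      have := od_iff.1 (p1 n).1
      rw [e]
      exact od_iff.2 inferInstance
  · rcases (mem _ _).1 hw with ⟨x, hx, rfl⟩ | ⟨m, -, z, x, h, rfl⟩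
    · exact pair_mem_prod.2 ⟨ord_mem_V hx, hLM hx⟩
    · have := pair_mem_prod.1 ((p1 m).2.1 h)
      exact pair_mem_prod.2 ⟨pair_mem_V hlim (ord_mem_V (hL.mem_trans (nat_mem_om m) h0)) this.1,
        this.2⟩
  · rcases (mem _ _).1 h1 with ⟨y, hy, e1⟩ | ⟨m, -, c, y, a1, e1⟩ <;>
      rcases (mem _ _).1 h2 with ⟨y', hy', e2⟩ | ⟨m', -, c', y', a2, e2⟩ <;>
      obtain ⟨e3, rfl⟩ := pair_inj.1 e1 <;> obtain ⟨e4, rfl⟩ := pair_inj.1 e2
    · exact e3.trans e4.symm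
    · exact absurd ((e3.trans e4.symm) ▸ hL.mem hy) (not_isOrdinal_pair _ _)
    · exact absurd ((e4.trans e3.symm) ▸ hL.mem hy') (not_isOrdinal_pair _ _)
    · obtain ⟨e5, rfl⟩ := pair_inj.1 (e3.trans e4.symm)
      obtain rfl := nat_inj.1 e5
      exact (p1 m).2.2 _ _ _ a1 a2
  · obtain ⟨n, z, h⟩ := p2 x hx
    exact ⟨n + 1, _, (mem _ _).2 (Or.inr ⟨n, Nat.lt_succ_self n, z, x, h, rfl⟩)⟩

theorem berk {L : ZFSet.{u}} (hL : Exact1 L) (h0 : om ∈ L)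
    (hl : StronglyMeasurable Set.univ (succCard L)) : Berk L := by
  refine ⟨hL.1, fun n M f Y b hn hc hLM hf hi hY y1 y2 hb => ?_⟩
  have hM : OD Set.univ M := by
    have := od_iff.1 hf
    refine od_iff.2 (Tm.of (fun _ => img fst f) inferInstance fun _ _ => ZFSet.ext fun x => ?_)
    refine ⟨fun hx => ?_, fun hx => mem_img.2 ⟨_, hi.1.app_mem hx, fst_pair _ _⟩⟩
    obtain ⟨w, hw, rfl⟩ := mem_img.1 hx
    obtain ⟨z, hz, y, -, rfl⟩ := mem_prod.1 (hi.1.1 hw)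
    rwa [fst_pair]
  have hK : card (n.sep fun x => L ∈ x ∧ H46.HODCard x) ≤ ℵ₀ := by
    rw [← Cardinal.lift_le.{u + 1}, ← cardinalMk_coe_sort, lift_aleph0, mk_le_aleph0_iff]
    refine (Set.Countable.mono (s₁ := (n.sep fun x => L ∈ x ∧ H46.HODCard x : ZFSet.{u}))
      (fun x hx => ?_) hc).to_subtype
    exact ⟨(mem_sep.1 hx).2.2, (mem_sep.1 hx).2.1, hn.subset_of_mem (mem_sep.1 hx).1⟩
  obtain ⟨p, p1, p2⟩ := hL.pieces h0 hl hn hK hM hf hi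
  obtain ⟨G, g1, g2, g3⟩ := exists_moves hL.1 (exact_lim hL) h0 hLM p p1 p2
  exact emb hL h0 hM hY y1 y2 hLM hb G g1 g2 g3

theorem Berk.exact {L b : ZFSet.{u}} (hL : Berk L) (hb : b ∈ L) : Exact L := by
  refine ⟨hL.1, fun Y y0 y1 _ y3 => ?_⟩
  have : Tm Set.univ On (fun _ => L) := Tm.ofOrd hL.1
  have : Tm Set.univ On (fun _ => b) := Tm.ofOrd (hL.1.mem hb)
  have : Tm Set.univ On (fun _ => V_ L.rank) := vC_rank hL.1 ▸ inferInstance
  obtain ⟨j, k, h1, -, h2, h3, -, h4⟩ := hL.2 L (V_ L.rank) (gr (fun x => pair x b) (V_ L.rank)) Y b hL.1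
    (Set.Subsingleton.countable fun c hc => absurd (hc.2.2 hc.2.1) (mem_irrefl L))
    (fun _ => ord_mem_V) (od_iff.2 inferInstance)
    ⟨isFunc_gr fun x hx => pair_mem_prod.2 ⟨hx, hb⟩, fun x x' y h h' =>
      (pair_inj.1 ((pair_mem_gr.1 h).2.trans (pair_mem_gr.1 h').2.symm)).1⟩ y0 y1 y3 hb
  exact ⟨j, k, h1, h2, h3, h4⟩

end Pool.Agent.MP_ecfd11_lc.H46G
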