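import Pool.Agent.MP_ecfd11_lc.H46G.Limit

/-!
At an exact ordinal the second player does not lose the embedding game.
-/

set_option synthInstance.maxSize 4000

namespace Pool.Agent.MP_ecfd11_lc.H46G

open Pool.Agent.MP_ecfd11_lc.H20 Pool.Agent.MP_ecfd11_lc.H13X

universe u

open ZFSet Cardinal Order Function

variable {L : ZFSet.{u}}

theorem exact_lim (hL : Exact1 L) : ∀ a < L.rank, succ a < L.rank := fun a ha => by
  obtain ⟨H, h1, h2⟩ := hL.seq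
  obtain ⟨n, hn⟩ := h2 _ (mem_of_rank hL.1 ha)
  have := rank_lt_of_mem hn
  rw [Ordinal.rank_toZFSet] at this
  exact (succ_le_of_lt this).trans_lt (rank_lt_of_mem (h1 n))

theorem exact_pres (hL : Exact1 L) (h0 : om ∈ L) {Y b : ZFSet.{u}} (hY : OD Set.univ Y)
    (y1 : Y ≠ ∅) (y2 : card Y < card L) (hb : b ∈ L) (P : ZFSet.{u} → ZFSet.{u} → Prop)
    [Df Set.univ On (fun v => P (v 0) (v 1))] :
    ∃ e k, El (V_ L.rank) e ∧ b ∈ k ∧ k ∈ L ∧ (∀ a ∈ k, e a = a) ∧ (∀ c ∈ L, ∃ n, c ∈ e^[n] k) ∧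
      ∀ A ∈ Y, ∀ x ∈ V_ L.rank, (P A x ↔ P A (e x)) := by
  have := od_iff.1 hY
  have := Df.two (C := Set.univ) (A := On) P
  have hbo := hL.1.mem hb
  have : Tm Set.univ On (fun _ => b) := Tm.ofOrd hbo
  have : Tm Set.univ On (fun _ => L) := Tm.ofOrd hL.1
  have : Tm Set.univ On (fun _ => V_ L.rank) := vC_rank hL.1 ▸ inferInstance
  obtain ⟨A0, hA0⟩ := (ZFSet.eq_empty_or_nonempty Y).resolve_left y1
  obtain ⟨e, k, h1, h2, h3, h4⟩ := (hL.family h0).2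
    (img (fun A => (V_ L.rank).sep fun z => z = b ∨ (z = pair b (snd z) ∧ P A (snd z))) Y)
    (od_iff.2 inferInstance) (fun e => notMem_empty _ (e ▸ mem_img.2 ⟨A0, hA0, rfl⟩))
    (fun B hB => by obtain ⟨A, -, rfl⟩ := mem_img.1 hB; exact sep_subset)
    ((card_img_le _ _).trans_lt y2)
  replace h1 := fun A hA => h1 _ (mem_img.2 ⟨A, hA, rfl⟩)
  have h5 := (h1 A0 hA0).el (isTransitive_vonNeumann _)
  have hbV := ord_mem_V hb
  have e1 : e b = b := by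
    rcases (mem_sep.1 (((h1 A0 hA0).pres hbV).1 (mem_sep.2 ⟨hbV, Or.inl rfl⟩))).2 with h | h
    · exact h
    · exact absurd (h.1 ▸ h5.ord hbo hbV) (not_isOrdinal_pair _ _)
  have key : ∀ A, ∀ x ∈ V_ L.rank, (P A x ↔ pair b x ∈
      (V_ L.rank).sep fun z => z = b ∨ (z = pair b (snd z) ∧ P A (snd z))) := fun A x hx => by
    rw [mem_sep, snd_pair, and_iff_right (pair_mem_V (exact_lim hL) hbV hx), and_iff_right rfl,
      or_iff_right fun e => not_isOrdinal_pair _ _ (e ▸ hbo)]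
  refine ⟨e, k, h5, ?_, h2, h3, h4, fun A hA x hx => ?_⟩
  · by_contra h
    obtain ⟨n, hn⟩ := h4 b hb
    have := (h5.iter n).sub ((hbo.notMem_iff_subset (hL.1.mem h2)).1 h) (ord_mem_V h2) hbV
    rw [iterate_fixed e1] at this
    exact mem_irrefl b (this hn)
  · have p := pair_mem_V (exact_lim hL) hbV hx
    rw [key A x hx, key A _ (h5.map x hx), (h1 A hA).pres p, h5.pair p, e1]

theorem gr_mem_V (hlim : ∀ a < L.rank, succ a < L.rank) {e : ZFSet.{u} → ZFSet.{u}}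
    (h : El (V_ L.rank) e) {a : ZFSet.{u}} (ha : a ∈ L) : gr e (V_ a.rank) ∈ V_ L.rank := by
  have h1 := vonNeumann_mem_of_lt (rank_lt_of_mem ha)
  have h2 := max_lt (rank_lt_of_mem ha) (mem_vonNeumann.1 (h.map _ h1))
  refine mem_vonNeumann.2 ((rank_le_iff.2 fun z hz => ?_).trans_lt (hlim _ (hlim _ h2)))
  obtain ⟨x, hx, rfl⟩ := mem_img.1 hz
  have h3 := succ_le_of_lt ((mem_vonNeumann.1 hx).trans_le (le_max_left _ (e (V_ a.rank)).rank))
  have h4 := succ_le_of_lt ((rank_lt_of_mem (h.mem hx h1)).trans_le (le_max_right a.rank _))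
  rw [pair, rank_pair, rank_singleton, rank_pair, lt_succ_iff]
  exact max_le (succ_le_succ h3) (succ_le_succ (max_le h3 h4))

theorem exists_fm (hL : L.IsOrdinal) (hlim : ∀ a < L.rank, succ a < L.rank)
    {e : ZFSet.{u} → ZFSet.{u}} {k : ZFSet.{u}} (h : El (V_ L.rank) e) (hk : k ∈ L)
    (fix : ∀ a ∈ k, e a = a) (cof : ∀ c ∈ L, ∃ n, c ∈ e^[n] k) {b : ZFSet.{u}} (hb : b ∈ L) :
    ∃ c ∈ L, ∀ a ∈ L, c ⊆ a → Fm L (V_ L.rank) k b (gr e (V_ a.rank)) := by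
  have eL : ∀ x ∈ L, e x ∈ L := fun x hx =>
    mem_of_mem_V (h.ord (hL.mem hx) (ord_mem_V hx)) hL (h.map _ (ord_mem_V hx))
  have itL : ∀ n, e^[n] k ∈ L := fun n => by
    induction n with
    | zero => exact hk
    | succ n ih => rw [iterate_succ_apply']; exact eL _ ih
  have bd : ∀ n, ∃ c ∈ L, ∀ i ≤ n, e^[i] k ∈ c := fun n => by
    have sc : ∀ x ∈ L, ∃ c ∈ L, x ∈ c := fun x hx =>
      ⟨_, mem_of_rank hL (hlim _ (rank_lt_of_mem hx)), mem_of_mem_V (hL.mem hx)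
        (isOrdinal_toZFSet _) (mem_vonNeumann.2 (by rw [Ordinal.rank_toZFSet]; exact lt_succ _))⟩
    induction n with
    | zero =>
      obtain ⟨c, h1, h2⟩ := sc k hk
      exact ⟨c, h1, fun i hi => by rw [Nat.le_zero.1 hi]; exact h2⟩
    | succ n ih =>
      obtain ⟨c, h1, h2⟩ := ih
      obtain ⟨c', h3, h4⟩ := sc _ (itL (n + 1))
      refine ⟨c ∪ c', union_mem hL h1 h3, fun i hi => mem_union.2 ?_⟩
      rcases Nat.of_le_succ hi with hi | rfl
      exacts [Or.inl (h2 i hi), Or.inr h4]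
  obtain ⟨n, hn⟩ := cof b hb
  obtain ⟨c, c1, c2⟩ := bd n
  refine ⟨c, c1, fun a ha hc => ⟨gr_mem_V hlim h ha, fun z hz => ⟨_, pair_mem_gr.2 ⟨?_, rfl⟩⟩,
    fun x y h1 y' h2 => (pair_mem_gr.1 h1).2.symm.trans (pair_mem_gr.1 h2).2,
    fun x hx => pair_mem_gr.2 ⟨?_, fix x hx⟩, fun x w h1 hx => (pair_mem_gr.1 h1).2 ▸ eL x hx,
    fun z w h1 h2 => ?_, fun X h1 h2 => ⟨_, ?_, hn⟩⟩⟩
  · exact mem_vonNeumann.2 (((mem_vC_ord (hL.mem hb)).1 hz).trans
      ((rank_lt_of_mem hn).trans (rank_lt_of_mem (hc (c2 n le_rfl)))))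
  · exact ord_mem_V ((hL.mem ha).mem_trans hx (hc (c2 0 (Nat.zero_le n))))
  · obtain ⟨h3, rfl⟩ := pair_mem_gr.1 h1
    generalize fst z = x, snd z = y at h2 ⊢
    subst h2
    rw [h.pair (vonNeumann_subset_of_le (rank_lt_of_mem ha).le h3), fst_pair, snd_pair]
    exact ⟨pair_mem_gr.2 ⟨fst_in (isTransitive_vonNeumann _) h3, rfl⟩,
      pair_mem_gr.2 ⟨snd_in (isTransitive_vonNeumann _) h3, rfl⟩, rfl⟩
  · clear hn
    induction n with
    | zero => exact h1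
    | succ n ih =>
      rw [iterate_succ_apply']
      exact h2 _ _ (pair_mem_gr.2 ⟨ord_mem_V (hc (c2 n (Nat.le_succ n))), rfl⟩)
        (ih fun i hi => c2 i (Nat.le_succ_of_le hi))

end Pool.Agent.MP_ecfd11_lc.H46G
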