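import Pool.Agent.MP_ecfd11_lc.H46G.Play

/-!
Self-embeddings of definable structures that are countable unions of definably small pieces.
-/

set_option synthInstance.maxSize 4000

namespace Pool.Agent.MP_ecfd11_lc.H46G

open Pool.Agent.MP_ecfd11_lc.H20 Pool.Agent.MP_ecfd11_lc.H13X

universe u

open ZFSet Cardinal Order Function

theorem emb {L M Y b : ZFSet.{u}} (hL : Exact1 L) (h0 : om ∈ L) (hM : OD Set.univ M)
    (hY : OD Set.univ Y) (y1 : Y ≠ ∅) (y2 : card Y < card L) (hLM : L ⊆ M) (hb : b ∈ L)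
    (G : ℕ → ZFSet.{u})
    (g1 : ∀ n, Mv L (V_ L.rank) M (G n)) (g2 : ∀ n, G n ⊆ G (n + 1))
    (g3 : ∀ x ∈ M, ∃ n z, pair z x ∈ G n) :
    ∃ j k, (∀ A ∈ Y, Emb M A j) ∧ b ∈ k ∧ k ∈ L ∧ (∀ a ∈ k, j a = a) ∧
      (∀ a ∈ L, j a ∈ L) ∧ ∀ c ∈ L, ∃ n, c ∈ j^[n] k := by
  have := od_iff.1 hM
  have := od_iff.1 hY
  have : Tm Set.univ On (fun _ => L) := Tm.ofOrd hL.1
  have : Tm Set.univ On (fun _ => V_ L.rank) := vC_rank hL.1 ▸ inferInstance
  obtain ⟨o, o1, o2, o3⟩ : ∃ o : Ordinal.{u}, IsSuccLimit o ∧ M.rank < o ∧ Y.rank < o :=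
    ⟨max M.rank Y.rank + Ordinal.omega0, Ordinal.isSuccLimit_add _ Ordinal.isSuccLimit_omega0,
      (le_max_left _ _).trans_lt (lt_add_of_pos_right _ Ordinal.omega0_pos),
      (le_max_right _ _).trans_lt (lt_add_of_pos_right _ Ordinal.omega0_pos)⟩
  have : Tm Set.univ On (fun _ => V_ o) := by
    have := vC_rank (isOrdinal_toZFSet o)
    rw [Ordinal.rank_toZFSet] at this
    exact this ▸ inferInstance
  have : Tm Set.univ On (fun _ => Pos L (V_ L.rank) M) := by unfold Pos; infer_instance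
  have : Df Set.univ On (fun v => Fst L (V_ L.rank) M (v 0) (v 1)) := by
    unfold Fst; infer_instance
  have : Df Set.univ On (fun v => Ans L (V_ L.rank) (V_ o) M Y (v 0) (v 1) (v 2)) := by
    unfold Ans; infer_instance
  obtain ⟨W, τ, t0, t1, t2, t3⟩ := game (Pos L (V_ L.rank) M) (Fst L (V_ L.rank) M)
    (Ans L (V_ L.rank) (V_ o) M Y) fun _ _ _ h => h.1
  obtain ⟨S, k, f, s1, s2, s3, s4, s5⟩ := start (U := V_ o) hL h0 hY y1 y2 (union_mem hL.1 hb h0)
    (mem_union.2 (Or.inr empty_mem_om)) (g1 0) τ t2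
  have hk := (hL.1.mem s2).subset_of_mem s1
  obtain ⟨B, b1, b2⟩ := hL.seq
  let Q : ℕ → ZFSet.{u} → Prop := fun n x =>
    x ∈ Pos L (V_ L.rank) M ∧ W x ∧ fst x = k ∧ fst (snd (snd x)) = G n
  have step : ∀ n x, Q n x → ∃ z,
      Ans L (V_ L.rank) (V_ o) M Y x (pair (B n) (G (n + 1))) z ∧ Q (n + 1) z :=
    fun n x ⟨q1, q2, q3, q4⟩ => by
      have := od_iff.1 (g1 (n + 1)).1
      have : Tm Set.univ On (fun _ => B n) := Tm.ofOrd (hL.1.mem (b1 n))
      obtain ⟨z, h1, h2⟩ := t1 x q1 q2 (pair (B n) (G (n + 1))) (od_iff.2 inferInstance)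
        ⟨by simpa only [fst_pair] using b1 n, by simpa only [snd_pair] using g1 _,
          by simpa only [snd_pair, q4] using g2 n⟩
      exact ⟨z, h1, h1.1, h2, h1.2.1.trans q3, h1.2.2.1.trans (snd_pair _ _)⟩
  choose! nx n1 n2 using step
  let x : ℕ → ZFSet.{u} := fun n => Nat.rec (S 0) nx n
  have inv : ∀ n, Q n (x n) := fun n => by
    induction n with
    | zero =>
      change Q 0 (S 0)
      refine ⟨?_, t3 S s5, ?_⟩ <;> rw [s4]
      · exact pos_mem s2 s3 (g1 0) (g1 0)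
      · simp only [fst_pair, snd_pair, and_self]
    | succ n ih => exact n2 n _ ih
  have ans : ∀ n, Ans L (V_ L.rank) (V_ o) M Y (x n) (pair (B n) (G (n + 1))) (x (n + 1)) :=
    fun n => n1 n _ (inv n)
  clear_value x
  obtain ⟨j, j1, j2, j3⟩ := limit (U := V_ o) (Y := Y) hL.1 (exact_lim hL)
    (fun y hy => hk (mem_union.2 (Or.inr hy))) s2
    (fun _ h1 _ h2 => pair_mem_V (fun _ h => o1.succ_lt h) h1 h2)
    (mem_vonNeumann.2 (by rw [rank_empty]; exact o1.bot_lt)) (mem_vonNeumann.2 o2)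
    (subset_vonNeumann.2 o3.le) y1 (subset_vonNeumann.2 o2.le) hLM
    (fun n => fst (snd (x (n + 1))))
    (fun n => G (n + 1)) (fun n => snd (snd (snd (x (n + 1))))) B
    (fun n => (ans (n + 1)).2.2.2.2.2.1) (fun n => g2 _) (fun n => (ans (n + 1)).2.2.2.2.1)
    (fun n => g1 _)
    (fun n => (ans n).2.2.2.1)
    (fun n => by simpa only [fst_pair, (inv n).2.2.1] using (ans n).2.2.2.2.2.2.1)
    (fun n => by simpa only [snd_pair] using (ans n).2.2.2.2.2.2.2) b1 b2 fun y hy => by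
      obtain ⟨n, z, h⟩ := g3 y hy
      exact ⟨n, z, g2 n h⟩
  exact ⟨j, k, j1, (hL.1.mem hb).mem_of_subset_of_mem (hL.1.mem s2)
    (fun y hy => mem_union.2 (Or.inl hy)) s1, s2, j2, j3⟩

end Pool.Agent.MP_ecfd11_lc.H46G
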