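import Pool.Agent.MP_ecfd11_lc.H13X.Fam

/-!
Open games in which the first player makes ordinal definable moves.
-/

set_option synthInstance.maxSize 4000

namespace Pool.Agent.MP_ecfd11_lc.H46G

open Pool.Agent.MP_ecfd11_lc.H20 Pool.Agent.MP_ecfd11_lc.H13X

universe u

open ZFSet Cardinal Order Function

/-- `W` is the set of positions that are not lost for the second player, and `τ` is a definable
strategy of the first player that wins from every other position. -/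
theorem game (P : ZFSet.{u}) [Tm Set.univ On (fun _ => P)] (I : ZFSet.{u} → ZFSet.{u} → Prop)
    (J : ZFSet.{u} → ZFSet.{u} → ZFSet.{u} → Prop) [Df Set.univ On (fun v => I (v 0) (v 1))]
    [Df Set.univ On (fun v => J (v 0) (v 1) (v 2))] (hJ : ∀ x y z, J x y z → z ∈ P) :
    ∃ (W : ZFSet.{u} → Prop) (τ : ZFSet.{u} → ZFSet.{u}), Tm Set.univ On (fun v => τ (v 0)) ∧
      (∀ x ∈ P, W x → ∀ y, OD Set.univ y → I x y → ∃ z, J x y z ∧ W z) ∧
      (∀ x ∈ P, (∃ y, OD Set.univ y ∧ I x y) → I x (τ x)) ∧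
      ∀ S : ℕ → ZFSet.{u}, (∀ n, J (S n) (τ (S n)) (S (n + 1))) → W (S 0) := by
  have := Df.two (C := Set.univ) (A := On) I
  have := Df.three' (C := Set.univ) J
  let F : ZFSet.{u} → ZFSet.{u} → ZFSet.{u} := fun _ g => P.sep fun x =>
    ∃ y, OD Set.univ y ∧ I x y ∧ ∀ z, J x y z → z ∈ (⋃₀ img snd g : ZFSet.{u})
  obtain ⟨K, hK⟩ := exists_rec (fun x => x) mem_wf F
  have : Tm Set.univ On (fun v => K (v 0)) :=
    Tm.recursion (fun _ x => x) (fun _ => F) (fun _ => K) (hF := by simp only [F]; infer_instance)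
      (fun _ _ => mem_wf) fun _ _ x _ => hK x
  have := Tm.one (C := Set.univ) (A := On) K
  have mK : ∀ a x, x ∈ K a ↔
      x ∈ P ∧ ∃ y, OD Set.univ y ∧ I x y ∧ ∀ z, J x y z → ∃ b ∈ a, z ∈ K b := fun a x => by
    rw [hK]
    simp only [F, snd_gr]
    simp only [mem_sep, mem_sUnion, mem_img, exists_exists_and_eq_and]
  obtain ⟨τ, t0, t1⟩ := od_choice (C := Set.univ) P (fun x y => (∃ y', OD Set.univ y' ∧ I x y') →
      I x y ∧ ∀ a : ZFSet.{u}, a.IsOrdinal → x ∈ K a → ∀ z, J x y z → ∃ b, b ∈ a ∧ z ∈ K b)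
    fun x hx => by
      by_cases h : ∃ a : ZFSet.{u}, a.IsOrdinal ∧ x ∈ K a
      · obtain ⟨a, ha⟩ := h
        obtain ⟨a0, ⟨h1, h2⟩, h3⟩ := exists_min_mem (p := fun a => a.IsOrdinal ∧ x ∈ K a) ha
        obtain ⟨-, y, y1, y2, y3⟩ := (mK _ _).1 h2
        refine ⟨y, y1, fun _ => ⟨y2, fun a a1 a2 z hz => ?_⟩⟩
        obtain ⟨b, b1, b2⟩ := y3 z hz
        exact ⟨b, (a1.notMem_iff_subset h1).1 (fun h => h3 a h ⟨a1, a2⟩) b1, b2⟩
      · by_cases h' : ∃ y', OD Set.univ y' ∧ I x y'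
        · obtain ⟨y, y1, y2⟩ := h'
          exact ⟨y, y1, fun _ => ⟨y2, fun a a1 a2 => absurd ⟨a, a1, a2⟩ h⟩⟩
        · exact ⟨∅, od_iff.2 inferInstance, fun h => absurd h h'⟩
  refine ⟨fun x => ∀ a : ZFSet.{u}, a.IsOrdinal → x ∉ K a, τ, t0, fun x hx hW y y1 y2 => ?_,
    fun x hx h => (t1 x hx trivial h).1, fun S hS a => ?_⟩
  · by_contra h
    have h1 : ∀ z, J x y z → ∃ a : ZFSet.{u}, a.IsOrdinal ∧ z ∈ K a := fun z hz => by
      by_contra h2
      exact h ⟨z, hz, fun a a1 a2 => h2 ⟨a, a1, a2⟩⟩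
    choose! r r1 r2 using h1
    refine hW (⋃₀ img (fun z => insert (r z) (r z)) (P.sep (J x y)))
      (isOrdinal_sUnion fun c hc => ?_) ((mK _ _).2 ⟨hx, y, y1, y2, fun z hz =>
        ⟨r z, mem_sUnion.2 ⟨_, mem_img.2 ⟨z, mem_sep.2 ⟨hJ _ _ _ hz, hz⟩, rfl⟩, mem_insert _ _⟩,
          r2 z hz⟩⟩)
    obtain ⟨z, hz, rfl⟩ := mem_img.1 hc
    exact isOrdinal_succ (r1 z (mem_sep.1 hz).2)
  · generalize 0 = n
    induction a using ZFSet.inductionOn generalizing n with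
    | _ a ih =>
      intro a1 a2
      obtain ⟨h1, y, y1, y2, -⟩ := (mK _ _).1 a2
      obtain ⟨b, b1, b2⟩ := (t1 _ h1 trivial ⟨y, y1, y2⟩).2 a a1 a2 _ (hS n)
      exact ih b b1 (n + 1) (a1.mem b1) b2

end Pool.Agent.MP_ecfd11_lc.H46G
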