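import Pool.Agent.MP_ecfd11_lc.H46G.Rules

/-!
An infinite run of the embedding game gives an elementary embedding.
-/

set_option synthInstance.maxSize 4000

namespace Pool.Agent.MP_ecfd11_lc.H46G

open Pool.Agent.MP_ecfd11_lc.H20 Pool.Agent.MP_ecfd11_lc.H13X

universe u

open ZFSet Cardinal Order Function

theorem mono_of_succ {f : ℕ → ZFSet.{u}} (h : ∀ n, f n ⊆ f (n + 1)) {m n : ℕ} (hmn : m ≤ n) :
    f m ⊆ f n := by
  induction hmn with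
  | refl => exact subset_rfl
  | step _ ih => exact ih.trans (h _)

theorem limit {L U M Y k : ZFSet.{u}} (hL : L.IsOrdinal) (hlim : ∀ a < L.rank, succ a < L.rank)
    (hk : om ⊆ k) (hkL : k ∈ L) (hU : ∀ x ∈ U, ∀ y ∈ U, pair x y ∈ U) (h0 : ∅ ∈ U)
    (hM : M ∈ U) (hA : Y ⊆ U) (hY : Y ≠ ∅) (hMU : M ⊆ U) (hLM : L ⊆ M)
    (f g g' b : ℕ → ZFSet.{u})
    (m1 : ∀ n, f n ⊆ f (n + 1)) (m2 : ∀ n, g n ⊆ g (n + 1)) (m3 : ∀ n, g' n ⊆ g' (n + 1))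
    (h1 : ∀ n, Mv L (V_ L.rank) M (g n)) (h2 : ∀ n, Mv L (V_ L.rank) M (g' n))
    (h3 : ∀ n, Fm L (V_ L.rank) k (b n) (f n))
    (h4 : ∀ n z w, pair z w ∈ f n → ∀ A, A ∈ Y → (Dg U M A (g n) z ↔ Dg U M A (g' n) w))
    (h5 : ∀ n, b n ∈ L) (h6 : ∀ c ∈ L, ∃ n, c ∈ b n) (h7 : ∀ x ∈ M, ∃ n z, pair z x ∈ g n) :
    ∃ j, (∀ A ∈ Y, Emb M A j) ∧ (∀ a ∈ k, j a = a) ∧ (∀ a ∈ L, j a ∈ L) ∧
      ∀ c ∈ L, ∃ n, c ∈ j^[n] k := by
  obtain ⟨A0, hA0⟩ := (ZFSet.eq_empty_or_nonempty Y).resolve_left hY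
  have e0 : ∅ ∈ L := hL.mem_trans (hk empty_mem_om) hkL
  have hw : V_ Ordinal.omega0 ⊆ V_ L.rank := vonNeumann_subset_of_le (by
    have := (rank_mono hk).trans (rank_lt_of_mem hkL).le
    rwa [Ordinal.rank_toZFSet] at this)
  have clo : ∀ x ∈ V_ L.rank, ∀ y ∈ V_ L.rank, pair x y ∈ V_ L.rank :=
    fun _ hx _ hy => pair_mem_V hlim hx hy
  have dom : ∀ z ∈ V_ L.rank, ∃ n w, pair z w ∈ f n := fun z hz => by
    obtain ⟨n, hn⟩ := h6 _ (mem_of_rank hL (mem_vonNeumann.1 hz))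
    refine ⟨n, (h3 n).2.1 z ((mem_vC_ord (hL.mem (h5 n))).2 ?_)⟩
    simpa using rank_lt_of_mem hn
  have step : ∀ (φ : Fml) (N : ℕ) (z w : ℕ → ZFSet.{u}), (∀ i, z i ∈ V_ L.rank) →
      (∀ i < fv φ, pair (z i) (w i) ∈ f N) → ∃ n, N ≤ n ∧ ∀ A, A ∈ Y →
      (Dg U M A (g n) (pair (code (rel φ)) (lst (fv φ) z)) ↔
        Dg U M A (g' n) (pair (code (rel φ)) (lst (fv φ) w))) := fun φ N z w hz hzw => by
    obtain ⟨n, q, hq⟩ := dom _ (clo _ (hw (code_mem (rel φ))) _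
      (lst_mem (ord_mem_V e0) clo (fv φ) hz))
    replace hq := mono_of_succ m1 (le_max_right N n) hq
    obtain ⟨c, s, q1, q2, rfl⟩ := (h3 _).pair hq
    obtain rfl := (h3 _).code hk _ _ q1
    obtain rfl := (h3 _).lst hk _ (fun i hi => mono_of_succ m1 (le_max_left N n) (hzw i hi)) q2
    exact ⟨_, le_max_left _ _, h4 _ _ _ hq⟩
  let J : ZFSet.{u} → ZFSet.{u} → Prop := fun x x' =>
    ∃ n z w, pair z x ∈ g n ∧ pair z w ∈ f n ∧ pair w x' ∈ g' n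
  have el : ∀ A ∈ Y, ∀ (φ : Fml) (v v' : ℕ → ZFSet.{u}), (∀ i, J (v i) (v' i)) →
      (Sat M φ (cons A v) ↔ Sat M φ (cons A v')) := fun A hAY φ v v' hJ => by
    choose n z w a1 a2 a3 using hJ
    have hN : ∀ i < fv φ, n i ≤ (Finset.range (fv φ)).sup n :=
      fun i hi => Finset.le_sup (Finset.mem_range.2 hi)
    obtain ⟨N, b1, b2⟩ := step φ _ z w (fun i => (pair_mem_prod.1 ((h1 _).2.1 (a1 i))).1)
      fun i hi => mono_of_succ m1 (hN i hi) (a2 i)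
    replace b2 := b2 A hAY
    rwa [dg_iff hU h0 hM (hA hAY) hMU (h1 N).2.2.1 ((h1 N).2.2.2 _ e0) φ
      (fun i => (pair_mem_prod.1 ((h1 _).2.1 (a1 i))).2)
      fun i hi => mono_of_succ m2 ((hN i hi).trans b1) (a1 i),
      dg_iff hU h0 hM (hA hAY) hMU (h2 N).2.2.1 ((h2 N).2.2.2 _ e0) φ
      (fun i => (pair_mem_prod.1 ((h2 _).2.1 (a3 i))).2)
      fun i hi => mono_of_succ m3 ((hN i hi).trans b1) (a3 i)] at b2
  have tot : ∀ x ∈ M, ∃ x', J x x' := fun x hx => by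
    obtain ⟨n, z, a1⟩ := h7 x hx
    have hz := (pair_mem_prod.1 ((h1 _).2.1 a1)).1
    obtain ⟨m, w, a2⟩ := dom z hz
    obtain ⟨N, b1, b2⟩ := step (.eq 0 0) (max n m) (fun _ => z) (fun _ => w) (fun _ => hz)
      fun _ _ => mono_of_succ m1 (le_max_right _ _) a2
    replace a1 := mono_of_succ m2 ((le_max_left _ _).trans b1) a1
    obtain ⟨r, -, b3, -⟩ := (b2 A0 hA0).1 ((dg_iff hU h0 hM (hA hA0) hMU (h1 N).2.2.1
      ((h1 N).2.2.2 _ e0) _ (v := fun _ => x) (fun _ => hx) fun _ _ => a1).2 rfl)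
    have b4 := lm_iff.1 b3 0
    rw [snd_pair, asg_lst _ _ 0 (by simp [fv])] at b4
    exact ⟨_, N, z, w, a1, mono_of_succ m1 ((le_max_right _ _).trans b1) a2, b4⟩
  choose! j hj using tot
  have onL : ∀ n x w, x ∈ L → pair x w ∈ f n → j x = w := fun n x w hx hw =>
    (el A0 hA0 (.eq 1 2) (fun _ => x) (cons (j x) fun _ => w) fun i => by
      cases i with
      | zero => exact hj x (hLM hx)
      | succ i => exact ⟨n, x, w, (h1 n).2.2.2 x hx, hw,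
          (h2 n).2.2.2 w ((h3 n).2.2.2.2.1 x w hw hx)⟩).1 rfl
  have jL : ∀ x ∈ L, j x ∈ L := fun x hx => by
    obtain ⟨n, w, hw⟩ := dom x (ord_mem_V hx)
    rw [onL n x w hx hw]
    exact (h3 n).2.2.2.2.1 x w hw hx
  have itL : ∀ n, j^[n] k ∈ L := fun n => by
    induction n with
    | zero => exact hkL
    | succ n ih => rw [iterate_succ_apply']; exact jL _ ih
  refine ⟨j, fun A hAY => ⟨fun x hx => ?_, fun φ v hv => el A hAY φ v _ fun i => hj _ (hv i)⟩,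
    fun a ha => onL 0 a a (hL.mem_trans ha hkL) ((h3 0).2.2.2.1 a ha), jL, fun c hc => ?_⟩
  · obtain ⟨n, z, w, -, -, a3⟩ := hj x hx
    exact (pair_mem_prod.1 ((h2 _).2.1 a3)).2
  · obtain ⟨n, hn⟩ := h6 c hc
    obtain ⟨x, hx, h8⟩ := (h3 n).2.2.2.2.2.2 (range fun m : ℕ => j^[m] k) (mem_range.2 ⟨0, rfl⟩)
      fun x w hw hx => by
        obtain ⟨m, rfl⟩ := mem_range.1 hx
        exact mem_range.2 ⟨m + 1, (iterate_succ_apply' _ _ _).trans (onL n _ w (itL m) hw)⟩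
    obtain ⟨m, rfl⟩ := mem_range.1 hx
    exact ⟨m, (hL.mem (itL m)).mem_trans hn h8⟩

end Pool.Agent.MP_ecfd11_lc.H46G
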