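import Pool.Agent.MP_ecfd11_lc.H46G.Copy

/-!
The second player copies a definable strategy along an embedding.
-/

set_option synthInstance.maxSize 4000

namespace Pool.Agent.MP_ecfd11_lc.H46G

open Pool.Agent.MP_ecfd11_lc.H20 Pool.Agent.MP_ecfd11_lc.H13X

universe u

open ZFSet Cardinal Order Function

/-- The positions `(k, f, h, h')`. -/
noncomputable def Pos (L V M : ZFSet.{u}) : ZFSet.{u} :=
  prod L (prod V (prod (powerset (prod V M)) (powerset (prod V M))))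

/-- The legal moves `(b, g)` of the first player. -/
def Fst (L V M x y : ZFSet.{u}) : Prop :=
  fst y ∈ L ∧ Mv L V M (snd y) ∧ fst (snd (snd x)) ⊆ snd y

/-- The legal answers of the second player. -/
def Ans (L V U M Y x y z : ZFSet.{u}) : Prop :=
  z ∈ Pos L V M ∧ fst z = fst x ∧ fst (snd (snd z)) = snd y ∧ Mv L V M (snd (snd (snd z))) ∧
    snd (snd (snd x)) ⊆ snd (snd (snd z)) ∧ fst (snd x) ⊆ fst (snd z) ∧
    Fm L V (fst x) (fst y) (fst (snd z)) ∧ ∀ a w, pair a w ∈ fst (snd z) → ∀ A, A ∈ Y →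
      (Dg U M A (snd y) a ↔ Dg U M A (snd (snd (snd z))) w)

theorem pos_mem {L V M k f h h' : ZFSet.{u}} (hk : k ∈ L) (hf : f ∈ V) (h1 : Mv L V M h)
    (h2 : Mv L V M h') : pair k (pair f (pair h h')) ∈ Pos L V M :=
  pair_mem_prod.2 ⟨hk, pair_mem_prod.2 ⟨hf, pair_mem_prod.2
    ⟨mem_powerset.2 h1.2.1, mem_powerset.2 h2.2.1⟩⟩⟩

theorem start {L U M Y b g : ZFSet.{u}} (hL : Exact1 L) (hom : om ∈ L)
    [Tm Set.univ On (fun _ => U)] [Tm Set.univ On (fun _ => M)] (hY : OD Set.univ Y) (y1 : Y ≠ ∅)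
    (y2 : card Y < card L) (hb : b ∈ L) (h0 : ∅ ∈ b)
    (hg : Mv L (V_ L.rank) M g) (τ : ZFSet.{u} → ZFSet.{u}) [Tm Set.univ On (fun v => τ (v 0))]
    (hτ : ∀ x ∈ Pos L (V_ L.rank) M, (∃ y, OD Set.univ y ∧ Fst L (V_ L.rank) M x y) →
      Fst L (V_ L.rank) M x (τ x)) :
    ∃ (S : ℕ → ZFSet.{u}) (k f : ZFSet.{u}), b ∈ k ∧ k ∈ L ∧ f ∈ V_ L.rank ∧
      S 0 = pair k (pair f (pair g g)) ∧
      ∀ n, Ans L (V_ L.rank) U M Y (S n) (τ (S n)) (S (n + 1)) := by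
  have : Tm Set.univ On (fun _ => L) := Tm.ofOrd hL.1
  have : Tm Set.univ On (fun _ => V_ L.rank) := vC_rank hL.1 ▸ inferInstance
  have : Tm Set.univ On (fun _ => g) := od_iff.1 hg.1
  have := Tm.one (C := Set.univ) (A := On) τ
  have hlim := exact_lim hL
  have clo : ∀ {x y}, x ∈ V_ L.rank → y ∈ V_ L.rank → pair x y ∈ V_ L.rank := pair_mem_V hlim
  let T : ZFSet.{u} → ZFSet.{u} → ZFSet.{u} := fun c G => snd (τ (pair (fst c) (pair (fst (snd c))
    (pair (app G (fst (snd (snd c)))) (app G (snd (snd (snd c))))))))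
  have : Tm Set.univ On (fun v => T (v 0) (v 1)) := by simp only [T]; infer_instance
  have := Tm.two (C := Set.univ) (A := On) T
  let F : ZFSet.{u} → ZFSet.{u} → ZFSet.{u} := fun c G =>
    @ite _ (c ≠ ∅ ∧ Mv L (V_ L.rank) M (T c G)) (Classical.propDecidable _) (T c G) g
  obtain ⟨H, hH⟩ := exists_rec tc tc_wf F
  have : Tm Set.univ On (fun v => H (v 0)) :=
    Tm.recursion (fun _ x => tc x) (fun _ => F) (fun _ => H)
      (hF := by simp only [F]; infer_instance) (fun _ _ => tc_wf) fun _ _ x _ => hH x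
  have := Tm.one (C := Set.univ) (A := On) H
  have H0 : H ∅ = g := by rw [hH]; exact if_neg fun h => h.1 rfl
  have H1 : ∀ c, Mv L (V_ L.rank) M (H c) := fun c => by
    rw [hH]
    simp only [F]
    split_ifs with h
    exacts [h.2, hg]
  have H2 : ∀ k f c c', Mv L (V_ L.rank) M (snd (τ (pair k (pair f (pair (H c) (H c')))))) →
      H (pair k (pair f (pair c c'))) = snd (τ (pair k (pair f (pair (H c) (H c'))))) :=
    fun k f c c' h => by
      have t1 : pair c c' ∈ tc (pair k (pair f (pair c c'))) :=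
        (isTransitive_tc _).mem_trans (y := {f, pair c c'}) (by simp)
          ((isTransitive_tc _).mem_trans (by simp [pair]) (snd_mem_tc _ _))
      have e : T (pair k (pair f (pair c c'))) (gr H (tc (pair k (pair f (pair c c'))))) =
          snd (τ (pair k (pair f (pair (H c) (H c'))))) := by
        simp only [T, fst_pair, snd_pair, app_gr (fst_in (isTransitive_tc _) t1),
          app_gr (snd_in (isTransitive_tc _) t1)]
      rw [← e] at h
      exact (hH _).trans ((if_pos ⟨fun e => not_isOrdinal_pair _ _ (e ▸ isOrdinal_empty), h⟩).trans e)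
  obtain ⟨e, k, e1, e2, e3, e4, e5, e6⟩ := exact_pres hL hom hY y1 y2 hb fun A x =>
    (fst x = ∅ ∧ Dg U M A (H (fst (snd x))) (snd (snd x))) ∨
      (fst x ≠ ∅ ∧ H (fst (snd x)) ⊆ H (snd (snd x)))
  obtain ⟨A0, hA0⟩ := (ZFSet.eq_empty_or_nonempty Y).resolve_left y1
  have z0 : ∅ ∈ k := (hL.1.mem e3).mem_trans h0 e2
  have z1 : ∅ ∈ L := hL.1.mem_trans z0 e3
  have key : ∀ A ∈ Y, ∀ t ∈ k, ∀ c ∈ V_ L.rank, ∀ z ∈ V_ L.rank,
      ((t = ∅ ∧ Dg U M A (H c) z) ∨ (t ≠ ∅ ∧ H c ⊆ H z) ↔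
        (t = ∅ ∧ Dg U M A (H (e c)) (e z)) ∨ (t ≠ ∅ ∧ H (e c) ⊆ H (e z))) :=
    fun A hA t ht c hc z hz => by
      have p := clo (ord_mem_V (hL.1.mem_trans ht e3)) (clo hc hz)
      have := e6 A hA _ p
      rw [e1.pair p, e1.pair (clo hc hz), e4 t ht] at this
      simpa only [fst_pair, snd_pair] using this
  have q1 : ∀ c ∈ V_ L.rank, ∀ z ∈ V_ L.rank, ∀ A, A ∈ Y →
      (Dg U M A (H c) z ↔ Dg U M A (H (e c)) (e z)) := fun c hc z hz A hA => by
    simpa using key A hA ∅ z0 c hc z hz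
  have q2 : ∀ c ∈ V_ L.rank, ∀ z ∈ V_ L.rank, H c ⊆ H z → H (e c) ⊆ H (e z) :=
    fun c hc z hz h => by
      have hne : b ≠ ∅ := fun e => notMem_empty _ (e ▸ h0)
      exact (((key A0 hA0 b e2 c hc z hz).1 (Or.inr ⟨hne, h⟩)).resolve_left fun h => hne h.1).2
  choose! N n1 n2 using fun c hc => exists_fm hL.1 hlim e1 e3 e4 e5 (b := c) hc
  let X : ZFSet.{u} × ZFSet.{u} → ZFSet.{u} := fun s =>
    pair k (pair (gr e (V_ s.1.rank)) (pair (H s.2) (H (e s.2))))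
  let st : ZFSet.{u} × ZFSet.{u} → ZFSet.{u} × ZFSet.{u} := fun s =>
    (s.1 ∪ N (fst (τ (X s))), pair k (pair (gr e (V_ s.1.rank)) (pair s.2 (e s.2))))
  have step : ∀ s : ZFSet.{u} × ZFSet.{u}, s.1 ∈ L ∧ s.2 ∈ V_ L.rank →
      ((st s).1 ∈ L ∧ (st s).2 ∈ V_ L.rank) ∧
        Ans L (V_ L.rank) U M Y (X s) (τ (X s)) (X (st s)) := fun s hs => by
    have := od_iff.1 (H1 s.2).1
    obtain ⟨a1, a2, a3⟩ := hτ (X s) (pos_mem e3 (gr_mem_V hlim e1 hs.1) (H1 _) (H1 _))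
      ⟨pair ∅ (H s.2), od_iff.2 inferInstance, by simpa only [fst_pair] using z1,
        by simpa only [snd_pair] using H1 _, by simp only [X, fst_pair, snd_pair]; exact subset_rfl⟩
    have b1 : (st s).1 ∈ L := union_mem hL.1 hs.1 (n1 _ a1)
    have b2 : (st s).2 ∈ V_ L.rank :=
      clo (ord_mem_V e3) (clo (gr_mem_V hlim e1 hs.1) (clo hs.2 (e1.map _ hs.2)))
    have b3 : H (st s).2 = snd (τ (X s)) := H2 _ _ _ _ a2
    rw [← b3] at a3
    refine ⟨⟨b1, b2⟩, pos_mem e3 (gr_mem_V hlim e1 b1) (H1 _) (H1 _), ?_⟩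
    rw [← b3]
    simp only [X, fst_pair, snd_pair] at a3 ⊢
    refine ⟨trivial, trivial, H1 _, q2 _ hs.2 _ b2 a3, fun z hz => ?_,
      n2 _ a1 _ b1 fun x hx => mem_union.2 (Or.inr hx), fun a w h => ?_⟩
    · obtain ⟨x, hx, rfl⟩ := mem_img.1 hz
      exact mem_img.2 ⟨x, vonNeumann_subset_of_le
        (rank_mono fun y hy => mem_union.2 (Or.inl hy)) hx, rfl⟩
    · obtain ⟨h1, rfl⟩ := pair_mem_gr.1 h
      exact q1 _ b2 _ (vonNeumann_subset_of_le (rank_lt_of_mem b1).le h1)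
  have inv : ∀ n, (st^[n] (∅, ∅)).1 ∈ L ∧ (st^[n] (∅, ∅)).2 ∈ V_ L.rank := fun n => by
    induction n with
    | zero => exact ⟨z1, ord_mem_V z1⟩
    | succ n ih => rw [iterate_succ_apply']; exact (step _ ih).1
  refine ⟨fun n => X (st^[n] (∅, ∅)), k, _, e2, e3, gr_mem_V hlim e1 z1, ?_, fun n => ?_⟩
  · simp only [X, iterate_zero, id, e4 ∅ z0, H0]
  · simp only [iterate_succ_apply']
    exact (step _ (inv n)).2

end Pool.Agent.MP_ecfd11_lc.H46G
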