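import Pool.Agent.MP_ecfd11_lc.H46G.Game

/-!
The rules of the embedding game.
-/

set_option synthInstance.maxSize 4000

namespace Pool.Agent.MP_ecfd11_lc.H46G

open Pool.Agent.MP_ecfd11_lc.H20 Pool.Agent.MP_ecfd11_lc.H13X

universe u

open ZFSet Cardinal Order Function

theorem fst_empty : fst (∅ : ZFSet.{u}) = ∅ := by
  ext x; simp [fst]

theorem snd_empty : snd (∅ : ZFSet.{u}) = ∅ := by
  ext x; simp [snd]

theorem asg_lst' (n : ℕ) (v : ℕ → ZFSet.{u}) (i : ℕ) (hi : n ≤ i) : asg (lst n v) i = ∅ := by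
  induction n generalizing v i with
  | zero => rw [lst, asg, iterate_fixed snd_empty, fst_empty]
  | succ n ih =>
    rw [lst, asg_pair]
    cases i with
    | zero => exact absurd hi (by simp)
    | succ i => exact ih _ i (Nat.le_of_succ_le_succ hi)

theorem nat_mem_om (n : ℕ) : nat.{u} n ∈ om :=
  Ordinal.toZFSet_mem_toZFSet_iff.2 (Ordinal.natCast_lt_omega0 n)

theorem exists_nat {x : ZFSet.{u}} (h : x ∈ om) : ∃ n, nat n = x := by
  obtain ⟨o, ho, rfl⟩ := Ordinal.mem_toZFSet_iff.1 h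
  obtain ⟨n, rfl⟩ := Ordinal.lt_omega0.1 ho
  exact ⟨n, rfl⟩

/-- `g` is single valued. -/
def Fn (g : ZFSet.{u}) : Prop := ∀ x y, pair x y ∈ g → ∀ y', pair x y' ∈ g → y = y'

instance Df.fn (s : (ℕ → ZFSet.{u}) → ZFSet.{u}) [Tm Set.univ On s] :
    Df Set.univ On (fun v => Fn (s v)) := by unfold Fn; infer_instance

/-- The list `r` is the image of the list `s` under `g`. -/
def Lm (g s r : ZFSet.{u}) : Prop := ∀ n, n ∈ om → pair (fst (tl s n)) (fst (tl r n)) ∈ g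

instance Df.lm (r s t : (ℕ → ZFSet.{u}) → ZFSet.{u}) [Tm Set.univ On r] [Tm Set.univ On s]
    [Tm Set.univ On t] : Df Set.univ On (fun v => Lm (r v) (s v) (t v)) := by
  unfold Lm; infer_instance

theorem lm_iff {g s r : ZFSet.{u}} : Lm g s r ↔ ∀ n, pair (asg s n) (asg r n) ∈ g := by
  refine ⟨fun h n => ?_, fun h x hx => ?_⟩
  · have := h _ (nat_mem_om n)
    rwa [tl_nat, tl_nat] at this
  · obtain ⟨n, rfl⟩ := exists_nat hx
    rw [tl_nat, tl_nat]
    exact h n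

/-- `z` is a formula together with a list of names whose values under `g` satisfy it. -/
def Dg (U M A g z : ZFSet.{u}) : Prop :=
  ∃ r, r ∈ U ∧ Lm g (snd z) r ∧ pair M (pair A r) ∈ satSet U (fst z)

/-- The moves: definable namings of elements of `M` by elements of `V`. -/
def Mv (L V M g : ZFSet.{u}) : Prop :=
  OD Set.univ g ∧ g ⊆ prod V M ∧ Fn g ∧ ∀ x, x ∈ L → pair x x ∈ g

/-- `f` is a piece of an embedding that is defined on `V_b` and moves `k` above `b`. -/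
def Fm (L V k b f : ZFSet.{u}) : Prop :=
  f ∈ V ∧ (∀ z, z ∈ vC Set.univ b → ∃ w, pair z w ∈ f) ∧ Fn f ∧ (∀ x, x ∈ k → pair x x ∈ f) ∧
    (∀ x w, pair x w ∈ f → x ∈ L → w ∈ L) ∧
    (∀ z w, pair z w ∈ f → z = pair (fst z) (snd z) →
      pair (fst z) (fst w) ∈ f ∧ pair (snd z) (snd w) ∈ f ∧ w = pair (fst w) (snd w)) ∧
    ∀ X : ZFSet.{u}, k ∈ X → (∀ x w, pair x w ∈ f → x ∈ X → w ∈ X) → ∃ x, x ∈ X ∧ b ∈ x

section
variable (L V U M : ZFSet.{u}) [Tm Set.univ On (fun _ => L)] [Tm Set.univ On (fun _ => V)]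
  [Tm Set.univ On (fun _ => U)] [Tm Set.univ On (fun _ => M)]
  (r s t : (ℕ → ZFSet.{u}) → ZFSet.{u}) [Tm Set.univ On r] [Tm Set.univ On s] [Tm Set.univ On t]

instance Df.dg : Df Set.univ On (fun v => Dg U M (r v) (s v) (t v)) :=
  haveI : Df Set.univ On (fun v : ℕ → ZFSet.{u} => Dg U M (v 0) (v 1) (v 2)) := by
    unfold Dg; infer_instance
  Df.three (Dg U M) r s t

instance Df.mv : Df Set.univ On (fun v => Mv L V M (s v)) :=
  haveI : Df Set.univ On (fun v : ℕ → ZFSet.{u} => Mv L V M (v 0)) := by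
    unfold Mv; infer_instance
  Df.one (Mv L V M) s

instance Df.fm : Df Set.univ On (fun v => Fm L V (r v) (s v) (t v)) :=
  haveI : Df Set.univ On (fun v : ℕ → ZFSet.{u} => Fm L V (v 0) (v 1) (v 2)) := by
    unfold Fm; infer_instance
  Df.three (Fm L V) r s t

end

theorem dg_iff {U M A g : ZFSet.{u}} (hU : ∀ x ∈ U, ∀ y ∈ U, pair x y ∈ U) (h0 : ∅ ∈ U)
    (hM : M ∈ U) (hA : A ∈ U) (hMU : M ⊆ U) (g1 : Fn g) (g0 : pair ∅ ∅ ∈ g) (φ : Fml)
    {z v : ℕ → ZFSet.{u}} (hv : ∀ i, v i ∈ M) (hz : ∀ i < fv φ, pair (z i) (v i) ∈ g) :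
    Dg U M A g (pair (code (rel φ)) (lst (fv φ) z)) ↔ Sat M φ (cons A v) := by
  have key : ∀ r ∈ U, (∀ i < fv φ, asg r i = v i) →
      (pair M (pair A r) ∈ satSet U (code (rel φ)) ↔ Sat M φ (cons A v)) := fun r hr h => by
    rw [mem_satSet hU _ (hU _ hM _ (hU _ hA _ hr)), asg_pair, asg_pair, sat_rel hMU]
    refine sat_congr φ fun n hn => ?_
    cases n with
    | zero => rfl
    | succ n => exact h n (Nat.lt_of_succ_lt hn)
  rw [Dg, fst_pair, snd_pair]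
  constructor
  · rintro ⟨r, hr, h1, h2⟩
    refine (key r hr fun i hi => g1 (z i) _ ?_ _ (hz i hi)).1 h2
    rw [← asg_lst _ z i hi]
    exact lm_iff.1 h1 i
  · intro h
    have hr := lst_mem h0 hU (fv φ) fun i => hMU (hv i)
    refine ⟨_, hr, lm_iff.2 fun i => ?_, (key _ hr (asg_lst _ v)).2 h⟩
    rcases lt_or_ge i (fv φ) with hi | hi
    · rw [asg_lst _ _ i hi, asg_lst _ _ i hi]; exact hz i hi
    · rw [asg_lst' _ _ i hi, asg_lst' _ _ i hi]; exact g0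

namespace Fm

variable {L V k b f : ZFSet.{u}} (h : Fm L V k b f)
include h

theorem pair {x y w : ZFSet.{u}} (hw : pair (pair x y) w ∈ f) :
    ∃ x' y', ZFSet.pair x x' ∈ f ∧ ZFSet.pair y y' ∈ f ∧ w = ZFSet.pair x' y' := by
  have := h.2.2.2.2.2.1 _ _ hw (by simp)
  rw [fst_pair, snd_pair] at this
  exact ⟨_, _, this⟩

theorem code (hk : om ⊆ k) (φ : Fml) : ∀ w, ZFSet.pair (code φ) w ∈ f → w = code φ := by
  have hn : ∀ n w, ZFSet.pair (nat n) w ∈ f → w = nat n := fun n w hw =>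
    h.2.2.1 _ _ hw _ (h.2.2.2.1 _ (hk (nat_mem_om n)))
  have hp : ∀ {x y}, (∀ w, ZFSet.pair x w ∈ f → w = x) → (∀ w, ZFSet.pair y w ∈ f → w = y) →
      ∀ w, ZFSet.pair (ZFSet.pair x y) w ∈ f → w = ZFSet.pair x y := fun h1 h2 w hw => by
    obtain ⟨x', y', h3, h4, rfl⟩ := h.pair hw
    rw [h1 _ h3, h2 _ h4]
  induction φ with
  | mem i j => exact hp (hn _) (hp (hn _) (hn _))
  | eq i j => exact hp (hn _) (hp (hn _) (hn _))
  | neg φ ih => exact hp (hn _) ih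
  | and φ ψ ih1 ih2 => exact hp (hn _) (hp ih1 ih2)
  | all φ ih => exact hp (hn _) ih

theorem lst (hk : om ⊆ k) (n : ℕ) {z w : ℕ → ZFSet.{u}} (hz : ∀ i < n, ZFSet.pair (z i) (w i) ∈ f)
    {s : ZFSet.{u}} (hs : ZFSet.pair (lst n z) s ∈ f) : s = lst n w := by
  induction n generalizing z w s with
  | zero => exact h.2.2.1 _ _ hs _ (h.2.2.2.1 _ (hk empty_mem_om))
  | succ n ih =>
    obtain ⟨x', y', h1, h2, rfl⟩ := h.pair hs
    rw [H13X.lst, h.2.2.1 _ _ h1 _ (hz 0 (Nat.succ_pos n)),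
      ih (fun i hi => hz (i + 1) (Nat.succ_lt_succ hi)) h2]

end Fm

end Pool.Agent.MP_ecfd11_lc.H46G
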